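import Mathlib
import Pool.Agent.H.MP_a19cb6_nt.A

set_option autoImplicit false

namespace Pool.Agent.H.MP_dcd7a9_nt

open Finset Pool.Agent.H.MP_a19cb6_nt

/-- weight `1 + 2^64 m n` -/
def wt (m n : ℕ) : ℕ := 1 + 18446744073709551616 * (m * n)

/-- no prime factor below `z` -/
def Ro (z n : ℕ) : Prop := ∀ p, p.Prime → p < z → ¬ p ∣ n

open Classical in
noncomputable def Ps (y z m : ℕ) : ℕ := ∑ n ∈ (Ioc 0 y).filter (Ro z), wt m n

noncomputable def isP (z : ℕ) : Bool :=
  Nat.ble 2 z && Nat.beq (Nat.gcd z (cond (Nat.ble z 263) (Nat.factorial (Nat.pred z))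
    (Nat.factorial 262))) 1

theorem cop {z t : ℕ} (h1 : t < z) (h2 : t + 1 = z ∨ z < (t + 1) ^ 2) (a : 2 ≤ z) :
    Nat.gcd z t.factorial = 1 ↔ z.Prime := by
  constructor
  · intro b
    by_contra hp
    have h3 := Nat.minFac_prime (n := z) (by omega)
    have h5 := Nat.minFac_sq_le_self (n := z) (by omega) hp
    have h6 := (Nat.not_prime_iff_minFac_lt a).1 hp
    have h7 : z.minFac < t + 1 := h2.elim (fun h => by omega) fun h =>
      lt_of_pow_lt_pow_left₀ 2 (Nat.zero_le _) (h5.trans_lt h)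
    exact h3.one_lt.ne' (Nat.dvd_one.1 (b ▸ Nat.dvd_gcd (Nat.minFac_dvd z)
      (Nat.dvd_factorial h3.pos (by omega))))
  · intro hp
    exact (Nat.Prime.coprime_iff_not_dvd hp).2 (by rw [hp.dvd_factorial]; omega)

theorem isP_iff {z : ℕ} (hz : z < 69169) : isP z = true ↔ z.Prime := by
  rw [isP, Bool.and_eq_true, Nat.ble_eq, Nat.beq_eq]
  rcases lt_or_ge z 2 with a | a
  · exact iff_of_false (fun h => absurd h.1 (by omega)) fun h => absurd h.two_le (by omega)
  rw [and_iff_right a]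
  cases h : Nat.ble z 263
  · rw [← Bool.not_eq_true, Nat.ble_eq] at h
    rw [cond_false]
    exact cop (t := 262) (by omega) (Or.inr hz) a
  · rw [cond_true]
    exact cop (t := z - 1) (by omega) (Or.inl (by omega)) a

attribute [irreducible] isP

theorem Ps_succ (y z m : ℕ) :
    Ps y z m = Ps y (z + 1) m + if z.Prime then Ps (y / z) z (m * z) else 0 := by
  classical
  unfold Ps
  split_ifs with hz
  · rw [← sum_filter_add_sum_filter_not ((Ioc 0 y).filter (Ro z)) (fun n => ¬ z ∣ n), filter_filter,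
      filter_filter]
    congr 1
    · refine sum_congr (filter_congr fun n _ => ⟨fun h p hp a => ?_, fun h =>
        ⟨fun p hp a => h p hp (by omega), h z hz (by omega)⟩⟩) fun _ _ => rfl
      rcases (Nat.le_of_lt_succ a).eq_or_lt with rfl | a
      exacts [h.2, h.1 p hp a]
    · symm
      refine sum_bij (fun k _ => z * k) (fun k hk => ?_) (fun a _ b _ e => Nat.eq_of_mul_eq_mul_left
        hz.pos e) (fun n hn => ?_) fun k _ => by rw [wt, wt, mul_assoc m]
      · obtain ⟨k1, k2⟩ := mem_filter.1 hk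
        obtain ⟨k3, k4⟩ := mem_Ioc.1 k1
        refine mem_filter.2 ⟨mem_Ioc.2 ⟨Nat.mul_pos hz.pos k3, by
          rw [mul_comm]; exact (Nat.le_div_iff_mul_le hz.pos).1 k4⟩, fun p hp a d => ?_, by simp⟩
        rcases (Nat.Prime.dvd_mul hp).1 d with d | d
        · exact a.ne ((Nat.prime_dvd_prime_iff_eq hp hz).1 d)
        · exact k2 p hp a d
      · obtain ⟨n1, n2, n3⟩ := mem_filter.1 hn
        obtain ⟨k, rfl⟩ := not_not.1 n3
        obtain ⟨k3, k4⟩ := mem_Ioc.1 n1
        exact ⟨k, mem_filter.2 ⟨mem_Ioc.2 ⟨Nat.pos_of_mul_pos_left k3,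
          (Nat.le_div_iff_mul_le hz.pos).2 (by rwa [mul_comm])⟩,
          fun p hp a d => n2 p hp a (d.mul_left _)⟩, rfl⟩
  · rw [add_zero]
    refine sum_congr (filter_congr fun n _ => ⟨fun h p hp a => ?_, fun h p hp a =>
      h p hp (by omega)⟩) fun _ _ => rfl
    rcases (Nat.le_of_lt_succ a).eq_or_lt with rfl | a
    exacts [absurd hp hz, h p hp a]

theorem Ps_tel (y z m k : ℕ) : Ps y z m = Ps y (z + k) m +
    ∑ j ∈ range k, if (z + j).Prime then Ps (y / (z + j)) (z + j) (m * (z + j)) else 0 := by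
  induction k with
  | zero => simp
  | succ k ih => rw [sum_range_succ, ih, Ps_succ y (z + k), ← add_assoc z]; ring

theorem Ps_small {y z : ℕ} (m : ℕ) (h0 : 0 < y) (h : y < z ^ 2) :
    Ps y z m = wt m 1 + ∑ q ∈ (Ico z (y + 1)).filter Nat.Prime, wt m q := by
  classical
  rw [← sum_insert (by simp [Nat.not_prime_one])]
  refine sum_congr (ext fun n => ?_) fun _ _ => rfl
  simp only [mem_filter, mem_Ioc, mem_insert, mem_Ico]
  constructor
  · rintro ⟨⟨a, b⟩, c⟩
    refine or_iff_not_imp_left.2 fun d => ?_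
    have h3 := Nat.minFac_prime d
    have h4 : z ≤ n.minFac := not_lt.1 fun e => c _ h3 e (Nat.minFac_dvd n)
    refine ⟨⟨h4.trans (Nat.minFac_le a), by omega⟩, by_contra fun hp => ?_⟩
    have := (Nat.pow_le_pow_left h4 2).trans (Nat.minFac_sq_le_self a hp)
    omega
  · rintro (rfl | ⟨⟨a, b⟩, c⟩)
    · exact ⟨⟨one_pos, h0⟩, fun p hp _ d => hp.one_lt.ne' (Nat.dvd_one.1 d)⟩
    · exact ⟨⟨c.pos, by omega⟩, fun p hp e d => by
        rw [(Nat.prime_dvd_prime_iff_eq hp c).1 d] at e; omega⟩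

open Classical in
theorem Ps_odd (y z m : ℕ) (hz : 3 ≤ z) : Ps y z m =
    ∑ i ∈ (range ((y + 1) / 2)).filter (fun i => Ro z (2 * i + 1)), wt m (2 * i + 1) := by
  symm
  refine sum_bij (fun i _ => 2 * i + 1) (fun i hi => ?_) (fun a _ b _ e => by omega)
    (fun n hn => ?_) fun _ _ => rfl
  · obtain ⟨a, b⟩ := mem_filter.1 hi
    rw [mem_range] at a
    exact mem_filter.2 ⟨mem_Ioc.2 ⟨by omega, by omega⟩, b⟩
  · obtain ⟨a, b⟩ := mem_filter.1 hn
    rw [mem_Ioc] at a
    have := b 2 Nat.prime_two (by omega)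
    obtain ⟨i, rfl⟩ : ∃ i, n = 2 * i + 1 := ⟨n / 2, by omega⟩
    exact ⟨i, mem_filter.2 ⟨mem_range.2 (by omega), b⟩, rfl⟩

noncomputable def bs (n m : ℕ) : ℕ :=
  Nat.add n (Nat.mul 18446744073709551616 (Nat.mul m (Nat.mul n n)))

theorem bs_eq (n m : ℕ) : bs n m = ∑ i ∈ range n, wt m (2 * i + 1) := by
  induction n with
  | zero => rfl
  | succ n ih =>
    rw [sum_range_succ, ← ih]
    simp only [bs, wt, Nat.add_eq, Nat.mul_eq]
    ring

noncomputable def ph (k : ℕ) : ℕ → ℕ → ℕ :=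
  Nat.rec (fun y m => bs (Nat.div (Nat.succ y) 2) m) (fun j ih y m => cond (isP (Nat.add j 3))
    (Nat.sub (ih y m) (ih (Nat.div y (Nat.add j 3)) (Nat.mul m (Nat.add j 3)))) (ih y m)) k

theorem ph_eq (k : ℕ) (hk : k < 1000) : ∀ y m, ph k y m = Ps y (k + 3) m := by
  classical
  induction k with
  | zero =>
    intro y m
    rw [Ps_odd _ _ _ le_rfl, filter_true_of_mem, ← bs_eq]
    · rfl
    · intro i _ p hp a d
      have := hp.two_le
      obtain rfl : p = 2 := by omega
      omega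
  | succ k ih =>
    intro y m
    have e : ph (k + 1) y m = cond (isP (k + 3))
      (ph k y m - ph k (y / (k + 3)) (m * (k + 3))) (ph k y m) := rfl
    have h := Ps_succ y (k + 3) m
    rw [e, ih (by omega), ih (by omega), add_right_comm k 1 3]
    cases c : isP (k + 3)
    · rw [if_neg (by rw [← isP_iff (by omega), c]; simp)] at h
      exact h
    · rw [if_pos ((isP_iff (by omega)).1 c)] at h
      rw [cond_true]
      omega

noncomputable def sv (T k : ℕ) : ℕ :=
  Nat.rec 0 (fun j ih => cond (isP (Nat.add j 3)) (Nat.lor ih (Nat.shiftLeft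
    (pat (Nat.add j 3) 22 (Nat.succ (Nat.div T (Nat.add j 3)))) (Nat.div (Nat.add j 3) 2))) ih) k

theorem sv_spec {T : ℕ} (hT : T < 4000000) {i : ℕ} (hi : i < T) (k : ℕ) (hk : k < 60000) :
    (sv T k).testBit i = true ↔ ¬ Ro (k + 3) (2 * i + 1) := by
  induction k with
  | zero =>
    refine iff_of_false (by simp [sv]) (not_not.2 fun p hp a d => ?_)
    have := hp.two_le
    obtain rfl : p = 2 := by omega
    omega
  | succ k ih =>
    have e : sv T (k + 1) = cond (isP (k + 3))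
      (sv T k ||| pat (k + 3) 22 (T / (k + 3) + 1) <<< ((k + 3) / 2)) (sv T k) := rfl
    have r : Ro (k + 1 + 3) (2 * i + 1) ↔
        Ro (k + 3) (2 * i + 1) ∧ ¬ ((k + 3).Prime ∧ k + 3 ∣ 2 * i + 1) := by
      refine ⟨fun h => ⟨fun p hp a => h p hp (by omega), fun c => h _ c.1 (by omega) c.2⟩,
        fun h p hp a d => ?_⟩
      rcases (show p ≤ k + 3 by omega).eq_or_lt with rfl | a
      exacts [h.2 ⟨hp, d⟩, h.1 p hp a d]
    rw [e, r, not_and_or, ← ih (by omega), not_not, ← isP_iff (by omega)]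
    cases c : isP (k + 3)
    · simp
    have hp := (isP_iff (by omega)).1 c
    have h7 : (k + 3) % 2 = 1 := hp.eq_two_or_odd.resolve_left (by omega)
    have h3 : T / (k + 3) ≤ T := Nat.div_le_self _ _
    rw [cond_true, Nat.testBit_or, Bool.or_eq_true, Nat.testBit_shiftLeft, Bool.and_eq_true,
      pat_spec _ 22 _ (Nat.le_add_left _ _) ((Nat.succ_le_succ h3).trans (by omega)),
      decide_eq_true_eq]
    refine or_congr_right ?_
    generalize k + 3 = q at *
    obtain ⟨s, rfl⟩ : ∃ s, q = 2 * s + 1 := ⟨q / 2, by omega⟩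
    rw [show (2 * s + 1) / 2 = s by omega]
    constructor
    · rintro ⟨a, t, -, b⟩
      exact ⟨rfl, 2 * t + 1, by
        obtain rfl : i = (2 * s + 1) * t + s := by omega
        ring⟩
    · rintro ⟨-, u, hu⟩
      obtain ⟨t, rfl⟩ : ∃ t, u = 2 * t + 1 := by
        rcases Nat.even_or_odd' u with ⟨t, rfl | rfl⟩
        · rw [mul_left_comm] at hu; omega
        · exact ⟨t, rfl⟩
      have : i = (2 * s + 1) * t + s := by nlinarith
      refine ⟨by omega, t, Nat.lt_succ_of_le ((Nat.le_div_iff_mul_le (by omega)).2 ?_), by omega⟩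
      rw [mul_comm]; omega

end Pool.Agent.H.MP_dcd7a9_nt
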