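import Mathlib
import Pool.Agent.H.MP_dcd7a9_nt.A

set_option autoImplicit false

namespace Pool.Agent.H.MP_dcd7a9_nt

open Finset Pool.Agent.H.MP_a19cb6_nt

noncomputable def rj (M E v j : ℕ) : ℕ := Nat.mod (Nat.land (Nat.shiftRight v j) M) E

noncomputable def dec (K D m a b : ℕ) : ℕ :=
  Nat.add (Nat.mod a D) (Nat.mul 18446744073709551616 (Nat.mul m (Nat.add (Nat.mod a D)
    (Nat.mul 2 (Nat.add (Nat.mul K (Nat.div a D)) (Nat.mod b D))))))

noncomputable def qr (K F D E v m : ℕ) : ℕ :=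
  dec K D m (Nat.rec 0 (fun j ih => Nat.add ih (rj (pat K 20 F) E v j)) K)
    (Nat.rec 0 (fun j ih => Nat.add ih (Nat.mul j (rj (pat K 20 F) E v j))) K)

theorem powD (D f : ℕ) : (D + 1) ^ f ≡ 1 + f * D [MOD D * D] := by
  induction f with
  | zero => simp [Nat.ModEq]
  | succ f ih =>
    rw [pow_succ]
    refine (ih.mul_right _).trans ?_
    rw [show (1 + f * D) * (D + 1) = 1 + (f + 1) * D + D * D * f by ring]
    exact Nat.add_mul_mod_self_left _ _ _

theorem modw {K D : ℕ} (hK : 0 < K) (hD : D + 1 = 2 ^ K) (y : ℕ)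
    (h : ∀ i, y.testBit i = true → K ∣ i) (n : ℕ) : y % 2 ^ n ≡
      ∑ i ∈ (range n).filter fun i => y.testBit i = true, (1 + i / K * D) [MOD D * D] := by
  induction n with
  | zero => simp [Nat.mod_one]; rfl
  | succ n ih =>
    rw [Nat.mod_pow_succ, ← Nat.toNat_testBit, range_add_one, filter_insert]
    split_ifs with hb
    · rw [sum_insert (by simp), hb, add_comm (1 + _)]
      obtain ⟨k, rfl⟩ := h n hb
      refine ih.add ?_
      rw [pow_mul, ← hD, Nat.mul_div_cancel_left _ hK]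
      simpa using powD D k
    · simpa [hb] using ih

theorem rj_eq {K F D v j : ℕ} (hD : D + 1 = 2 ^ K) (F1 : 1 ≤ F) (F2 : F ≤ 2 ^ 20) (F3 : F * F < D)
    (hv : v < 2 ^ (K * F)) (hj : j < K) : rj (pat K 20 F) (D * D) v j =
      ∑ l ∈ ((range (K * F)).filter fun l => v.testBit l = true).filter (· % K = j),
        (1 + l / K * D) := by
  have hK : 0 < K := by omega
  have hM := pat_spec K 20 F F1 F2
  generalize pat K 20 F = M at *
  have a := modw hK hD ((v >>> j) &&& M) (fun i hi => by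
    rw [Nat.testBit_and, Bool.and_eq_true, hM] at hi
    obtain ⟨-, k, -, rfl⟩ := hi
    exact dvd_mul_right _ _) (K * F)
  rw [Nat.mod_eq_of_lt (Nat.and_le_left.trans_lt ((Nat.shiftRight_le _ _).trans_lt hv))] at a
  have b : ∑ i ∈ (range (K * F)).filter fun i => ((v >>> j) &&& M).testBit i = true, (1 + i / K * D) =
      ∑ l ∈ ((range (K * F)).filter fun l => v.testBit l = true).filter (· % K = j),
        (1 + l / K * D) := by
    refine sum_bij (fun i _ => j + i) (fun i hi => ?_) (fun a _ b _ e => by omega) (fun l hl => ?_)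
      fun i hi => ?_
    · simp only [mem_filter, mem_range, Nat.testBit_and, Bool.and_eq_true, Nat.testBit_shiftRight,
        hM] at hi ⊢
      obtain ⟨-, c, k, hk, rfl⟩ := hi
      refine ⟨⟨?_, c⟩, by rw [Nat.add_mul_mod_self_left, Nat.mod_eq_of_lt hj]⟩
      nlinarith
    · simp only [mem_filter, mem_range, Nat.testBit_and, Bool.and_eq_true, Nat.testBit_shiftRight,
        hM] at hl ⊢
      obtain ⟨⟨c, d⟩, rfl⟩ := hl
      have := Nat.mod_add_div l K
      exact ⟨K * (l / K), ⟨by omega, by rwa [this], l / K, Nat.div_lt_of_lt_mul c, rfl⟩, this⟩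
    · simp only [mem_filter, Nat.testBit_and, Bool.and_eq_true, hM] at hi
      obtain ⟨-, -, k, -, rfl⟩ := hi
      rw [Nat.add_mul_div_left _ _ hK, Nat.div_eq_of_lt hj, zero_add, Nat.mul_div_cancel_left _ hK]
  rw [b] at a
  refine Eq.trans a (Nat.mod_eq_of_lt ?_)
  have c : (((range (K * F)).filter fun l => v.testBit l = true).filter (· % K = j)).card ≤ F := by
    refine (card_le_card_of_injOn (t := range F) (· / K) (fun l hl => ?_) fun a ha b hb e => ?_).trans
      (card_range F).le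
    · exact mem_coe.2 (mem_range.2 (Nat.div_lt_of_lt_mul
        (mem_range.1 (mem_filter.1 (mem_filter.1 hl).1).1)))
    · have e : a / K = b / K := e
      rw [← Nat.mod_add_div a K, ← Nat.mod_add_div b K, (mem_filter.1 ha).2, (mem_filter.1 hb).2, e]
  refine (sum_le_card_nsmul _ _ (F * D) fun l hl => ?_).trans_lt ?_
  · have := Nat.div_lt_of_lt_mul (mem_range.1 (mem_filter.1 (mem_filter.1 hl).1).1)
    nlinarith
  · rw [smul_eq_mul]
    calc _ ≤ F * (F * D) := Nat.mul_le_mul_right _ c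
      _ < _ := by rw [← mul_assoc]; exact Nat.mul_lt_mul_of_pos_right F3 (by omega)

theorem qr_eq {K F D E v : ℕ} (m : ℕ) (hK : 0 < K) (hD : D + 1 = 2 ^ K) (hE : E = D * D) (F1 : 1 ≤ F)
    (F2 : F ≤ 2 ^ 20) (F3 : F * F < D) (F4 : K * F * K < D) (hv : v < 2 ^ (K * F)) :
    qr K F D E v m =
      ∑ l ∈ (range (K * F)).filter fun l => v.testBit l = true, wt m (2 * l + 1) := by
  subst hE
  obtain ⟨S, hS⟩ : ∃ S, S = (range (K * F)).filter fun l => v.testBit l = true := ⟨_, rfl⟩
  have hc : S.card ≤ K * F := hS ▸ (card_filter_le _ _).trans (card_range _).le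
  have mp : ∀ l ∈ S, l % K ∈ range K := fun l _ => mem_range.2 (Nat.mod_lt _ hK)
  have a : (Nat.rec 0 (fun j ih => Nat.add ih (rj (pat K 20 F) (D * D) v j)) K : ℕ) =
      S.card + D * ∑ l ∈ S, l / K := by
    refine (rec_sum (fun j => rj (pat K 20 F) (D * D) v j) K).trans ?_
    rw [sum_congr rfl fun j hj => rj_eq hD F1 F2 F3 hv (mem_range.1 hj), ← hS,
      sum_fiberwise_of_maps_to mp, sum_add_distrib, ← sum_mul, ← card_eq_sum_ones, mul_comm]
  have b : (Nat.rec 0 (fun j ih => Nat.add ih (Nat.mul j (rj (pat K 20 F) (D * D) v j))) K : ℕ) =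
      ∑ l ∈ S, l % K + D * ∑ l ∈ S, l % K * (l / K) := by
    refine (rec_sum (fun j => j * rj (pat K 20 F) (D * D) v j) K).trans ?_
    rw [mul_sum, ← sum_add_distrib, ← sum_fiberwise_of_maps_to mp]
    refine sum_congr rfl fun j hj => ?_
    rw [rj_eq hD F1 F2 F3 hv (mem_range.1 hj), ← hS, mul_sum]
    exact sum_congr rfl fun l hl => by rw [(mem_filter.1 hl).2]; ring
  have c : ∑ l ∈ S, l % K < D :=
    (sum_le_card_nsmul _ _ K fun l _ => (Nat.mod_lt _ hK).le).trans_lt
      ((Nat.mul_le_mul_right _ hc).trans_lt F4)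
  have d : S.card < D := hc.trans_lt ((Nat.le_mul_of_pos_right _ hK).trans_lt F4)
  rw [qr, a, b, ← hS]
  have e : ∀ a b, dec K D m a b =
    a % D + 18446744073709551616 * (m * (a % D + 2 * (K * (a / D) + b % D))) := fun _ _ => rfl
  simp only [wt]
  rw [e, Nat.add_mul_mod_self_left, Nat.add_mul_mod_self_left, Nat.add_mul_div_left _ _ (by omega),
    Nat.mod_eq_of_lt c, Nat.mod_eq_of_lt d, Nat.div_eq_of_lt d, zero_add, mul_sum, ← sum_add_distrib,
    sum_congr rfl fun l _ => Nat.div_add_mod l K, sum_add_distrib, ← mul_sum, ← mul_sum,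
    sum_add_distrib, ← mul_sum, ← card_eq_sum_ones, add_comm (2 * _)]

noncomputable def qq (n v m : ℕ) : ℕ :=
  cond (Nat.ble n 4080) (qr 16 255 65535 4294836225 v m)
  (cond (Nat.ble n 20460) (qr 20 1023 1048575 1099509530625 v m)
  (cond (Nat.ble n 98280) (qr 24 4095 16777215 281474943156225 v m)
  (cond (Nat.ble n 458724) (qr 28 16383 268435455 72057593501057025 v m)
  (cond (Nat.ble n 2097120) (qr 32 65535 4294967295 18446744065119617025 v m)
    (qr 36 111112 68719476735 4722366482732206260225 v m)))))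

theorem qq_eq {n v : ℕ} (m : ℕ) (hn : n < 4000000) (hv : v < 2 ^ n) :
    qq n v m = ∑ l ∈ (range n).filter fun l => v.testBit l = true, wt m (2 * l + 1) := by
  have k : ∀ {K F D E : ℕ}, 0 < K ∧ D + 1 = 2 ^ K ∧ E = D * D ∧ 1 ≤ F ∧ F ≤ 2 ^ 20 ∧ F * F < D ∧
      K * F * K < D → n ≤ K * F → qr K F D E v m =
      ∑ l ∈ (range n).filter fun l => v.testBit l = true, wt m (2 * l + 1) :=
    fun ⟨a, b, c, d, e, f, g⟩ h => by
      rw [qr_eq m a b c d e f g (hv.trans_le (Nat.pow_le_pow_right two_pos h))]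
      refine sum_congr (ext fun l => ?_) fun _ _ => rfl
      simp only [mem_filter, mem_range]
      refine and_congr_left fun t => ⟨fun _ => not_le.1 fun u => ?_, fun u => u.trans_le h⟩
      rw [Nat.testBit_lt_two_pow (hv.trans_le (Nat.pow_le_pow_right two_pos u))] at t
      simp at t
  have c : ∀ a x y z : ℕ, (n ≤ a → x = z) → y = z → cond (Nat.ble n a) x y = z :=
    fun a x y z h1 h2 => by
      cases h : Nat.ble n a
      exacts [h2, h1 (Nat.le_of_ble_eq_true h)]
  refine c _ _ _ _ (fun h => k ?_ h) (c _ _ _ _ (fun h => k ?_ h) (c _ _ _ _ (fun h => k ?_ h)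
    (c _ _ _ _ (fun h => k ?_ h) (c _ _ _ _ (fun h => k ?_ h) (k ?_ (by omega)))))) <;> norm_num

noncomputable def Q1 (A n m : ℕ) : ℕ :=
  Nat.sub (bs n m) (qq n (Nat.land A (Nat.pred (Nat.shiftLeft 1 n))) m)

noncomputable def Q (T k y m : ℕ) : ℕ := Q1 (sv T k) (Nat.div (Nat.succ y) 2) m

theorem Q_eq {T k y : ℕ} (m : ℕ) (hT : T < 4000000) (hk : k < 60000) (hy : y < 2 * T) :
    Q T k y m = Ps y (k + 3) m := by
  classical
  have e : Q T k y m = bs ((y + 1) / 2) m -
    qq ((y + 1) / 2) (sv T k &&& (1 <<< ((y + 1) / 2) - 1)) m := rfl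
  rw [e, Ps_odd _ _ _ (by omega), Nat.one_shiftLeft, Nat.and_two_pow_sub_one_eq_mod,
    qq_eq m (by omega) (Nat.mod_lt _ (by positivity)), bs_eq,
    ← sum_filter_add_sum_filter_not _ fun i => Ro (k + 3) (2 * i + 1)]
  refine Nat.sub_eq_of_eq_add (congrArg _ (sum_congr (filter_congr fun i hi => ?_) fun _ _ => rfl))
  rw [mem_range] at hi
  rw [Nat.testBit_mod_two_pow, Bool.and_eq_true, sv_spec hT (by omega) k hk, decide_eq_true_eq,
    and_iff_right hi]

end Pool.Agent.H.MP_dcd7a9_nt
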