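import Mathlib
import Pool.Agent.H.MP_dcd7a9_nt.B

set_option autoImplicit false

namespace Pool.Agent.H.MP_dcd7a9_nt

open Finset

noncomputable def lv (f : ℕ → ℕ) (lo n : ℕ) : ℕ :=
  Nat.rec 0 (fun j ih => cond (isP (Nat.add lo j)) (Nat.add ih (f (Nat.add lo j))) ih) n

theorem lv_eq (f : ℕ → ℕ) (lo n : ℕ) (h : lo + n ≤ 69169) :
    lv f lo n = ∑ j ∈ range n, if (lo + j).Prime then f (lo + j) else 0 := by
  induction n with
  | zero => rfl
  | succ n ih =>
    have e : lv f lo (n + 1) = cond (isP (lo + n)) (lv f lo n + f (lo + n)) (lv f lo n) := rfl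
    rw [e, sum_range_succ, ih (by omega)]
    cases c : isP (lo + n)
    · rw [if_neg (by rw [← isP_iff (by omega), c]; simp)]; rfl
    · rw [if_pos ((isP_iff (by omega)).1 c)]; rfl

noncomputable def t2 (x T p : ℕ) : ℕ := Nat.sub (ph 26 (Nat.div x p) p)
  (lv (fun q => Q T (Nat.sub q 3) (Nat.div (Nat.div x p) q) (Nat.mul p q)) 29 (Nat.sub p 29))

noncomputable def t1 (x T k p : ℕ) : ℕ :=
  Nat.sub (Nat.add (Q T k (Nat.div x p) p) (wt p 1)) (Q T k (Nat.pred p) p)

theorem t2_eq {x T p : ℕ} (hT : T < 4000000) (h1 : 29 ≤ p) (h2 : p < 60000)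
    (h3 : x / p / 29 < 2 * T) : t2 x T p = Ps (x / p) p p := by
  have e : t2 x T p = ph 26 (x / p) p -
    lv (fun q => Q T (q - 3) (x / p / q) (p * q)) 29 (p - 29) := rfl
  rw [e, ph_eq _ (by norm_num), lv_eq _ _ _ (by omega), Ps_tel _ 29 _ (p - 29),
    show 29 + (p - 29) = p by omega]
  refine Nat.sub_eq_of_eq_add (congrArg _ (sum_congr rfl fun j hj => ?_))
  rw [mem_range] at hj
  rw [Q_eq _ hT (by omega) ((Nat.div_le_div_left (by omega) (by omega)).trans_lt h3),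
    show 29 + j - 3 + 3 = 29 + j by omega]

theorem split (f : ℕ → ℕ) {a b c : ℕ} (h1 : a ≤ b) (h2 : b ≤ c) :
    ∑ q ∈ (Ico a c).filter Nat.Prime, f q =
      ∑ q ∈ (Ico a b).filter Nat.Prime, f q + ∑ q ∈ (Ico b c).filter Nat.Prime, f q := by
  rw [sum_filter, sum_filter, sum_filter, sum_Ico_consecutive _ h1 h2]

theorem t1_eq {x T k p : ℕ} (hT : T < 4000000) (hk : k < 60000) (h1 : k + 3 ≤ p) (h2 : p * p ≤ x)
    (h3 : x / p < 2 * T) (h4 : x / p < (k + 3) ^ 2) : t1 x T k p = Ps (x / p) p p := by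
  have e : t1 x T k p = Q T k (x / p) p + wt p 1 - Q T k (p - 1) p := rfl
  have a : p ≤ x / p := (Nat.le_div_iff_mul_le (by omega)).2 h2
  rw [e, Q_eq _ hT hk h3, Q_eq _ hT hk (by omega), Ps_small _ (by omega) h4,
    Ps_small _ (by omega) (by omega),
    Ps_small _ (by omega) (h4.trans_le (Nat.pow_le_pow_left h1 2)),
    split _ h1 (show p ≤ x / p + 1 by omega), show p - 1 + 1 = p by omega]
  omega

@[irreducible] noncomputable def U (x n : ℕ) : ℕ :=
  ∑ j ∈ range n, if (29 + j).Prime then Ps (x / (29 + j)) (29 + j) (1 * (29 + j)) else 0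

theorem U_add {x a n V : ℕ} {f : ℕ → ℕ} (h : 29 + a + n ≤ 69169) (hV : lv f (29 + a) n = V)
    (hf : ∀ p, 29 + a ≤ p → p < 29 + a + n → f p = Ps (x / p) p p) : U x (a + n) = U x a + V := by
  rw [U, U, sum_range_add, ← hV, lv_eq _ _ _ h]
  refine congrArg _ (sum_congr rfl fun j hj => ?_)
  rw [hf _ (by omega) (by have := mem_range.1 hj; omega), one_mul, add_assoc]

noncomputable def c2 (x T a n b V : ℕ) : Bool :=
  Nat.beq b (a + n) && Nat.blt T 4000000 && Nat.ble (29 + a + n) 60000 &&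
    Nat.blt (x / (29 + a) / 29) (2 * T) && Nat.beq (lv (t2 x T) (29 + a) n) V

noncomputable def c1 (x T k a n b V : ℕ) : Bool :=
  Nat.beq b (a + n) && Nat.blt T 4000000 && Nat.ble (29 + a + n) 69169 && Nat.blt k 60000 &&
    Nat.ble (k + 3) (29 + a) && Nat.ble ((28 + a + n) * (28 + a + n)) x &&
    Nat.blt (x / (29 + a)) (2 * T) && Nat.blt (x / (29 + a)) ((k + 3) ^ 2) &&
    Nat.beq (lv (t1 x T k) (29 + a) n) V

theorem s2 {x T a n b V : ℕ} (h : c2 x T a n b V = true) : U x b = U x a + V := by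
  simp only [c2, Bool.and_eq_true, Nat.ble_eq, Nat.beq_eq, Nat.blt_eq] at h
  obtain ⟨⟨⟨⟨rfl, h1⟩, h2⟩, h3⟩, h4⟩ := h
  exact U_add (by omega) h4 fun p a b => t2_eq h1 (by omega) (by omega)
    ((Nat.div_le_div_right (Nat.div_le_div_left a (by omega))).trans_lt h3)

theorem s1 {x T k a n b V : ℕ} (h : c1 x T k a n b V = true) : U x b = U x a + V := by
  simp only [c1, Bool.and_eq_true, Nat.ble_eq, Nat.beq_eq, Nat.blt_eq] at h
  obtain ⟨⟨⟨⟨⟨⟨⟨⟨rfl, h1⟩, h2⟩, h3⟩, h4⟩, h5⟩, h6⟩, h7⟩, h8⟩ := h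
  exact U_add h2 h8 fun p a b => t1_eq h1 h3 (by omega)
    ((Nat.mul_le_mul (by omega) (by omega)).trans h5)
    ((Nat.div_le_div_left a (by omega)).trans_lt h6) ((Nat.div_le_div_left a (by omega)).trans_lt h7)

theorem cat {x a b c V W : ℕ} (Z : ℕ) (h1 : U x b = U x a + V) (h2 : U x c = U x b + W)
    (h : V + W = Z) : U x c = U x a + Z := by omega

noncomputable def cf (x n V c s : ℕ) : Bool :=
  Nat.blt x ((29 + n) ^ 2) && Nat.ble (29 + n) x && Nat.ble 300 n && Nat.ble (29 + n) 69169 &&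
    Nat.blt x 18446744073709551615 && Nat.blt c 18446744073709551616 &&
    Nat.beq (c + 18446744073709551616 * s + V + 2 * wt 1 1)
      (ph 26 x 1 + Q 40000 260 (28 + n) 1 + lv (wt 1) 0 263)

theorem nth_sum (x : ℕ) : ∑ k ∈ range (Nat.count Nat.Prime x), Nat.nth Nat.Prime k =
    ∑ q ∈ (range x).filter Nat.Prime, q := by
  induction x with
  | zero => rfl
  | succ x ih =>
    rw [Nat.count_succ, range_add_one, filter_insert]
    split_ifs with h
    · rw [sum_range_succ, Nat.nth_count h, sum_insert (by simp), ih, add_comm]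
    · exact ih

theorem fin {x n V c s : ℕ} (hU : U x n = U x 0 + V) (h : cf x n V c s = true) :
    ∑ k ∈ range c, Nat.nth Nat.Prime k = s := by
  simp only [cf, Bool.and_eq_true, Nat.ble_eq, Nat.beq_eq, Nat.blt_eq] at h
  obtain ⟨⟨⟨⟨⟨⟨h1, h2⟩, h3⟩, h4⟩, h5⟩, h6⟩, h7⟩ := h
  rw [U.eq_1 x 0, sum_range_zero, zero_add] at hU
  have l : lv (wt 1) 0 263 = ∑ q ∈ (Ico 0 263).filter Nat.Prime, wt 1 q := by
    rw [lv_eq _ _ _ (by norm_num), sum_filter, range_eq_Ico]
    exact sum_congr rfl fun j _ => by rw [zero_add]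
  rw [ph_eq _ (by norm_num), Q_eq _ (by norm_num) (by norm_num) (by omega), l, Ps_tel _ 29 _ n, ← U.eq_1, hU, Ps_small _ (by omega) h1,
    Ps_small _ (by omega) (by omega), show 28 + n + 1 = 29 + n by omega] at h7
  have a := split (wt 1) (Nat.zero_le 263) (show 263 ≤ 29 + n by omega)
  have b := split (wt 1) (Nat.zero_le (29 + n)) (show 29 + n ≤ x + 1 by omega)
  have d : ∑ q ∈ (Ico 0 (x + 1)).filter Nat.Prime, wt 1 q = Nat.count Nat.Prime (x + 1) +
      18446744073709551616 * ∑ q ∈ (range (x + 1)).filter Nat.Prime, q := by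
    simp only [wt, one_mul]
    rw [sum_add_distrib, ← mul_sum, ← card_eq_sum_ones, ← range_eq_Ico,
      Nat.count_eq_card_filter_range]
  have e := Nat.count_le (p := Nat.Prime) (n := x + 1)
  rw [← nth_sum] at d
  have f : c = Nat.count Nat.Prime (x + 1) := by
    simp only [Nat.reduceAdd] at h7; omega
  rw [f]
  simp only [Nat.reduceAdd] at h7; omega

end Pool.Agent.H.MP_dcd7a9_nt
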