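import Pool.Agent.H.MP_dcd7a9_nt.C

namespace Pool.Agent.H.MP_dcd7a9_nt

theorem sega1 : U 2274652150 24060 = U 2274652150 1287 + 1282075313301690277983076332003797655 := by
  have h0 := s1 (show c1 2274652150 864230 1312 1287 1275 2562 305575662395282289641388020712557774 = true by decide +kernel)
  have h1 := s1 (show c1 2274652150 438953 934 2562 3498 6060 385416123110761821358685521075886500 = true by decide +kernel)
  have h2 := s1 (show c1 2274652150 186784 609 6060 6000 12060 298670572448461810283781300468417197 = true by decide +kernel)
  have h3 := s1 (show c1 2274652150 94080 431 12060 6000 18060 173614647797560876575740658678362864 = true by decide +kernel)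
  have h4 := s1 (show c1 2274652150 62874 352 18060 6000 24060 118798307549623480123480831068573320 = true by decide +kernel)
  have c1 := cat 690991785506044111000073541788444274 h0 h1 (by norm_num)
  have c2 := cat 989662357954505921283854842256861471 c1 h2 (by norm_num)
  have c3 := cat 1163277005752066797859595500935224335 c2 h3 (by norm_num)
  have c4 := cat 1282075313301690277983076332003797655 c3 h4 (by norm_num)
  exact c4

end Pool.Agent.H.MP_dcd7a9_nt
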