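import Pool.Agent.H.MP_dcd7a9_nt.C

namespace Pool.Agent.H.MP_dcd7a9_nt

theorem sega2 : U 2274652150 47665 = U 2274652150 24060 + 187814506380611257787899172926456548 := by
  have h0 := s1 (show c1 2274652150 47214 305 24060 6000 30060 82420607679651954725968082667167229 = true by decide +kernel)
  have h1 := s1 (show c1 2274652150 37799 272 30060 6000 36060 59378353055856381652149781896458157 = true by decide +kernel)
  have h2 := s1 (show c1 2274652150 31515 249 36060 6000 42060 35153317978041376079799078838299948 = true by decide +kernel)
  have h3 := s1 (show c1 2274652150 27022 230 42060 5605 47665 10862227667061545329982229524531214 = true by decide +kernel)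
  have c1 := cat 141798960735508336378117864563625386 h0 h1 (by norm_num)
  have c2 := cat 176952278713549712457916943401925334 c1 h2 (by norm_num)
  have c3 := cat 187814506380611257787899172926456548 c2 h3 (by norm_num)
  exact c3

end Pool.Agent.H.MP_dcd7a9_nt
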