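import Pool.Agent.H.MP_dcd7a9_nt.C

namespace Pool.Agent.H.MP_dcd7a9_nt

theorem segb0 : U 4711447171 706 = U 4711447171 0 + 16171143606894410515792150997487857027 := by
  have h0 := s2 (show c2 4711447171 2801099 0 72 72 8859048144015466835824597079974917109 = true by decide +kernel)
  have h1 := s2 (show c2 4711447171 804276 72 92 164 3033259590531414134910410179081778237 = true by decide +kernel)
  have h2 := s2 (show c2 4711447171 420891 164 144 308 1970976401260828167630543576806684501 = true by decide +kernel)
  have h3 := s2 (show c2 4711447171 241045 308 184 492 1371605315927635457097147247908262153 = true by decide +kernel)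
  have h4 := s2 (show c2 4711447171 155916 492 214 706 936254155159065920329452913716215027 = true by decide +kernel)
  have c1 := cat 11892307734546880970735007259056695346 h0 h1 (by norm_num)
  have c2 := cat 13863284135807709138365550835863379847 c1 h2 (by norm_num)
  have c3 := cat 15234889451735344595462698083771642000 c2 h3 (by norm_num)
  have c4 := cat 16171143606894410515792150997487857027 c3 h4 (by norm_num)
  exact c4

end Pool.Agent.H.MP_dcd7a9_nt
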