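import Pool.Agent.H.MP_dcd7a9_nt.C

namespace Pool.Agent.H.MP_dcd7a9_nt

theorem segb1 : U 4711447171 1648 = U 4711447171 706 + 1796626756680801561219379126962286593 := by
  have h0 := s2 (show c2 4711447171 110520 706 231 937 624694252751500584883696436673905305 = true by decide +kernel)
  have h1 := s2 (show c2 4711447171 84091 937 215 1152 452692987814398666572702316679367377 = true by decide +kernel)
  have h2 := s2 (show c2 4711447171 68783 1152 216 1368 325372821336360643756100281263477247 = true by decide +kernel)
  have h3 := s2 (show c2 4711447171 58148 1368 185 1553 270981448014356168855996364486753455 = true by decide +kernel)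
  have h4 := s2 (show c2 4711447171 51348 1553 95 1648 122885246764185497150883727858783209 = true by decide +kernel)
  have c1 := cat 1077387240565899251456398753353272682 h0 h1 (by norm_num)
  have c2 := cat 1402760061902259895212499034616749929 c1 h2 (by norm_num)
  have c3 := cat 1673741509916616064068495399103503384 c2 h3 (by norm_num)
  have c4 := cat 1796626756680801561219379126962286593 c3 h4 (by norm_num)
  exact c4

end Pool.Agent.H.MP_dcd7a9_nt
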