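import Pool.Agent.H.MP_dcd7a9_nt.C

namespace Pool.Agent.H.MP_dcd7a9_nt

theorem segb2 : U 4711447171 10242 = U 4711447171 1648 + 3280547757508105930778940102112942950 := by
  have h0 := s1 (show c1 4711447171 1404725 1674 1648 562 2210 512133112151440131267731596735348164 = true by decide +kernel)
  have h1 := s1 (show c1 4711447171 1052133 1448 2210 810 3020 586852435883270080988730923637161039 = true by decide +kernel)
  have h2 := s1 (show c1 4711447171 772622 1241 3020 1290 4310 644013946042519451467876552179110035 = true by decide +kernel)
  have h3 := s1 (show c1 4711447171 542919 1040 4310 2214 6524 735533251099856868052006015498663133 = true by decide +kernel)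
  have h4 := s1 (show c1 4711447171 359488 845 6524 3718 10242 802015012331019399002595014062660579 = true by decide +kernel)
  have c1 := cat 1098985548034710212256462520372509203 h0 h1 (by norm_num)
  have c2 := cat 1742999494077229663724339072551619238 c1 h2 (by norm_num)
  have c3 := cat 2478532745177086531776345088050282371 c2 h3 (by norm_num)
  have c4 := cat 3280547757508105930778940102112942950 c3 h4 (by norm_num)
  exact c4

end Pool.Agent.H.MP_dcd7a9_nt
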