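import Pool.Agent.H.MP_dcd7a9_nt.C

namespace Pool.Agent.H.MP_dcd7a9_nt

theorem segb3 : U 4711447171 40202 = U 4711447171 10242 + 2308304087044827604995990462149814781 := by
  have h0 := s1 (show c1 4711447171 229357 675 10242 5960 16202 799087004440353414258309835362135977 = true by decide +kernel)
  have h1 := s1 (show c1 4711447171 145138 536 16202 6000 22202 539148572634731797417067416661551198 = true by decide +kernel)
  have h2 := s1 (show c1 4711447171 105966 458 22202 6000 28202 402108460528348193958032519844533337 = true by decide +kernel)
  have h3 := s1 (show c1 4711447171 83445 406 28202 6000 34202 316729280379983420652590543027408692 = true by decide +kernel)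
  have h4 := s1 (show c1 4711447171 68819 368 34202 6000 40202 251230769061410778709990147254185577 = true by decide +kernel)
  have c1 := cat 1338235577075085211675377252023687175 h0 h1 (by norm_num)
  have c2 := cat 1740344037603433405633409771868220512 c1 h2 (by norm_num)
  have c3 := cat 2057073317983416826286000314895629204 c2 h3 (by norm_num)
  have c4 := cat 2308304087044827604995990462149814781 c3 h4 (by norm_num)
  exact c4

end Pool.Agent.H.MP_dcd7a9_nt
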