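import Pool.Agent.H.MP_dcd7a9_nt.C

namespace Pool.Agent.H.MP_dcd7a9_nt

theorem segb4 : U 4711447171 68611 = U 4711447171 40202 + 527791070383395279805178244874519469 := by
  have h0 := s1 (show c1 4711447171 58555 340 40202 6000 46202 197603971463679410224333578751317654 = true by decide +kernel)
  have h1 := s1 (show c1 4711447171 50956 317 46202 6000 52202 151864976668816505983582568754407265 = true by decide +kernel)
  have h2 := s1 (show c1 4711447171 45103 298 52202 6000 58202 107077943666298008085536347845487688 = true by decide +kernel)
  have h3 := s1 (show c1 4711447171 40455 282 58202 6000 64202 58220548932421309835709849105298732 = true by decide +kernel)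
  have h4 := s1 (show c1 4711447171 36676 268 64202 4409 68611 13023629652180045676015900418008130 = true by decide +kernel)
  have c1 := cat 349468948132495916207916147505724919 h0 h1 (by norm_num)
  have c2 := cat 456546891798793924293452495351212607 c1 h2 (by norm_num)
  have c3 := cat 514767440731215234129162344456511339 c2 h3 (by norm_num)
  have c4 := cat 527791070383395279805178244874519469 c3 h4 (by norm_num)
  exact c4

end Pool.Agent.H.MP_dcd7a9_nt
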