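import Pool.Agent.H.MP_dcd7a9_nt.Sa0
import Pool.Agent.H.MP_dcd7a9_nt.Sa1
import Pool.Agent.H.MP_dcd7a9_nt.Sa2
import Pool.Agent.H.MP_dcd7a9_nt.Sb0
import Pool.Agent.H.MP_dcd7a9_nt.Sb1
import Pool.Agent.H.MP_dcd7a9_nt.Sb2
import Pool.Agent.H.MP_dcd7a9_nt.Sb3
import Pool.Agent.H.MP_dcd7a9_nt.Sb4

namespace Pool.Agent.H.MP_dcd7a9_nt

theorem suma : ∑ k ∈ Finset.range 111008770, Nat.nth Nat.Prime k = 123000804558174777 := by
  have c1 := cat 5349996538754538372673677252015233106 sega0 sega1 (by norm_num)
  have c2 := cat 5537811045135149630461576424941689654 c1 sega2 (by norm_num)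
  exact fin c2 (show cf 2274652150 47665 5537811045135149630461576424941689654 111008770 123000804558174777 = true by decide +kernel)

theorem sumb : ∑ k ∈ Finset.range 222017542, Nat.nth Nat.Prime k = 510024998640309373 := by
  have c1 := cat 17967770363575212077011530124450143620 segb0 segb1 (by norm_num)
  have c2 := cat 21248318121083318007790470226563086570 c1 segb2 (by norm_num)
  have c3 := cat 23556622208128145612786460688712901351 c2 segb3 (by norm_num)
  have c4 := cat 24084413278511540892591638933587420820 c3 segb4 (by norm_num)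
  exact fin c4 (show cf 4711447171 68611 24084413278511540892591638933587420820 222017542 510024998640309373 = true by decide +kernel)

end Pool.Agent.H.MP_dcd7a9_nt
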