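import Pool.Agent.H.MP_dcd7a9_nt.C

namespace Pool.Agent.H.MP_dcd7a9_nt

theorem sega0 : U 2274652150 1287 = U 2274652150 0 + 4067921225452848094690600920011435451 := by
  have h0 := s2 (show c2 2274652150 1352350 0 168 168 2798639208229566187603467211501718828 = true by decide +kernel)
  have h1 := s2 (show c2 2274652150 199077 168 282 450 699863918180791824240503743722453645 = true by decide +kernel)
  have h2 := s2 (show c2 2274652150 81876 450 309 759 306315326276923369683227387065355036 = true by decide +kernel)
  have h3 := s2 (show c2 2274652150 49770 759 281 1040 161470883620089325959536309098173745 = true by decide +kernel)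
  have h4 := s2 (show c2 2274652150 36687 1040 247 1287 101631889145477387203866268623734197 = true by decide +kernel)
  have c1 := cat 3498503126410358011843970955224172473 h0 h1 (by norm_num)
  have c2 := cat 3804818452687281381527198342289527509 c1 h2 (by norm_num)
  have c3 := cat 3966289336307370707486734651387701254 c2 h3 (by norm_num)
  have c4 := cat 4067921225452848094690600920011435451 c3 h4 (by norm_num)
  exact c4

end Pool.Agent.H.MP_dcd7a9_nt
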